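import Pool.Agent.H573R2.PSp.Final

/-!
# Linear space is contained in P iff some sparse set is PSPACE-hard under threshold reductions

`InPSPACE`, `InP`: deterministic polynomial space and polynomial time of Mathlib's Turing machines
`Turing.FinTM2`.  `ThresholdReduces A S d c`: a polynomial-time function maps `x` to a list of
integer-weighted conjunctions, each of at most `c |x|` queries to `S`, of total absolute weight at
most `d |x|`, such that `x ∈ A` iff the weighted number of true conjunctions is positive.  Width
one contains disjunctive, conjunctive, majority and linear threshold reductions (see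
`ThresholdReduces.of_disjunctive` and `ThresholdReduces.of_conjunctive` in
`Pool.Agent.H573R2.PSp.Final`), constant width contains bounded truth-table reductions.

By padding, `DSPACE(n) ⊆ P`, `NSPACE(n) ⊆ P` and `PSPACE ⊆ P` are equivalent.
-/

namespace Pool.Agent.Results.MP_d19090_lc.SparseThreshold

open Pool.Agent.NPC Pool.Agent.H623R2.PS Pool.Agent.H579R2.Spt Pool.Agent.H573R2.PSp

/-- `PSPACE ⊆ P` iff some sparse set is hard for `PSPACE` under polynomial-time threshold
reductions of polynomial weight and constant width, iff some set `S` is hard for `PSPACE` under
polynomial-time threshold reductions for which weight, width and census of `S` are jointly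
polynomially bounded. -/
theorem result :
    ((∀ L : Set (List Bool), InPSPACE L → InP L) ↔
      ∃ S : Set (List Bool), Sparse S ∧ ∀ L : Set (List Bool), InPSPACE L →
        ∃ (q : Polynomial ℕ) (c : ℕ), ThresholdReduces L S (fun n => q.eval n) (fun _ => c)) ∧
    ((∀ L : Set (List Bool), InPSPACE L → InP L) ↔
      ∃ S : Set (List Bool), ∀ L : Set (List Bool), InPSPACE L →
        ∃ d c : ℕ → ℕ, PolyBounded S d c ∧ ThresholdReduces L S d c) :=
  ⟨tfae_P.out 0 1, tfae_P.out 0 2⟩

end Pool.Agent.Results.MP_d19090_lc.SparseThreshold
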