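import Pool.Agent.H573R2.PSp.Final

/-!
# Linear space is contained in NP iff some sparse set is PSPACE-hard under nondeterministic
single-valued threshold reductions

`InPSPACE`, `InNP`: deterministic polynomial space and nondeterministic polynomial time, with
Mathlib's Turing machines `Turing.FinTM2`.  `NThresholdReduces A S d c`: a total single-valued
nondeterministic polynomial-time function (`NPSVt`: polynomially bounded, graph in `NP`) maps `x` to
a list of integer-weighted conjunctions, each of at most `c |x|` queries to `S`, of total absolute
weight at most `d |x|`, such that `x ∈ A` iff the weighted number of true conjunctions is positive.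

By padding, `DSPACE(n) ⊆ NP`, `NSPACE(n) ⊆ NP` and `PSPACE ⊆ NP` are equivalent.
-/

namespace Pool.Agent.Results.MP_d19090_lc.SparseThresholdNP

open Pool.Agent.NPC Pool.Agent.H623R2.PS Pool.Agent.H579R2.Spt Pool.Agent.H573R2.PSp

/-- `PSPACE ⊆ NP` iff some sparse set is hard for `PSPACE` under nondeterministic single-valued
threshold reductions of polynomial weight and constant width, iff some set `S` is hard for `PSPACE`
under such reductions for which weight, width and census of `S` are jointly polynomially
bounded. -/
theorem result :
    ((∀ L : Set (List Bool), InPSPACE L → InNP L) ↔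
      ∃ S : Set (List Bool), Sparse S ∧ ∀ L : Set (List Bool), InPSPACE L →
        ∃ (q : Polynomial ℕ) (c : ℕ), NThresholdReduces L S (fun n => q.eval n) (fun _ => c)) ∧
    ((∀ L : Set (List Bool), InPSPACE L → InNP L) ↔
      ∃ S : Set (List Bool), ∀ L : Set (List Bool), InPSPACE L →
        ∃ d c : ℕ → ℕ, PolyBounded S d c ∧ NThresholdReduces L S d c) :=
  ⟨tfae_NP.out 0 1, tfae_NP.out 0 2⟩

end Pool.Agent.Results.MP_d19090_lc.SparseThresholdNP
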