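import Pool.Agent.H564R3.MR.Lower
import Pool.Agent.H564R3.MR.Upper
import Pool.Agent.H564R3.NR.Freeze
import Pool.Agent.H564R3.NR.OrProg

/-!
Functions in monotone P for which polynomial-length programs with `(1 - 1 / h) log N` negations need
more than `N ^ c` registers.
-/

set_option autoImplicit false

namespace Pool.Agent.Results.MP_d19090_lc.SuperlinearWidth

open Pool.Agent.H564R3.NR
open Pool.Agent.H564R3.PW (Pos pairs Arc var)
open Pool.Agent.H564R3.MR (HasClique)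

/-- The input variables: the adjacency matrices of `m ^ (4 * h)` graphs, each with `m`
candidates for each of the `k * (m + 1)` positions, where `m = 2 ^ ℓ`. -/
abbrev Inputs (k h ℓ : ℕ) : Type :=
  Fin ((2 ^ ℓ) ^ (4 * h)) × Arc k (2 ^ ℓ + 1) (2 ^ ℓ)

/-- The function: at least one of the graphs has a chained multicoloured clique. -/
def SomeClique (k h ℓ : ℕ) : (Inputs k h ℓ → Bool) → Prop :=
  OrCopies ((2 ^ ℓ) ^ (4 * h)) (HasClique (k := k) (n := 2 ^ ℓ + 1) (m := 2 ^ ℓ))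

theorem not_hasClique {k n m : ℕ} (hk : 1 ≤ k) (hn : 2 ≤ n) :
    ¬ HasClique (k := k) (n := n) (m := m) fun _ => false := by
  rintro ⟨φ, h⟩
  have h1 : 0 < (pairs k n).card := by
    have := Pool.Agent.H564R3.PW.card_pairs k n
    have h2 : 1 * 1 ≤ k ^ 2 * (n - 1) := Nat.mul_le_mul (Nat.pow_pos hk) (by omega)
    omega
  obtain ⟨e, he⟩ := Finset.card_pos.1 h1
  exact absurd (h e he) (by simp)

theorem card_in (q k n m : ℕ) : Fintype.card (Fin q × Arc k n m) = q * (k * n * m) ^ 2 := by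
  simp only [Arc, Pos, Fintype.card_prod, Fintype.card_fin]
  ring

/-- a program without negations as a program with negations -/
def toN {X ρ : Type} : Pool.Agent.H564R3.MR.Instr X ρ → NInstr X ρ
  | .load i x => .load i x
  | .app i f j l => .app i f j l

theorem nexec_toN {X ρ : Type} [DecidableEq ρ] (w : X → Bool)
    (p : List (Pool.Agent.H564R3.MR.Instr X ρ)) :
    nexec w (p.map toN) = Pool.Agent.H564R3.MR.exec w p := by
  unfold nexec Pool.Agent.H564R3.MR.exec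
  rw [List.foldl_map]
  congr 1
  funext v I
  cases I <;> rfl

theorem negs_toN {X ρ : Type} (p : List (Pool.Agent.H564R3.MR.Instr X ρ)) :
    negs (p.map toN) = 0 := by
  unfold negs
  rw [List.countP_eq_zero]
  intro I hI
  rw [List.mem_map] at hI
  obtain ⟨J, -, rfl⟩ := hI
  cases J <;> simp [toN, NInstr.isNeg]

/-- numbers for the upper bound -/
theorem num_up (k h m N L : ℕ) (hk : 2 ≤ k) (hm : 1 ≤ m)
    (hN : N = m ^ (4 * h) * (k * (m + 1) * m) ^ 2) (hL : L ≤ m * (m ^ k) ^ 2 * (8 * k ^ 2 + 6)) :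
    m ^ (4 * h) * (L + 1) ≤ N ^ (2 * k + 4) := by
  have h0 : 1 ≤ m ^ (4 * h) := Nat.pow_pos hm
  have h1 : 4 * k ^ 2 ≤ (k * (m + 1) * m) ^ 2 := by
    have : 2 * k ≤ k * (m + 1) * m := by
      calc 2 * k = k * (1 + 1) * 1 := by ring
        _ ≤ k * (m + 1) * m := Nat.mul_le_mul (Nat.mul_le_mul_left _ (by omega)) hm
    calc 4 * k ^ 2 = (2 * k) ^ 2 := by ring
      _ ≤ (k * (m + 1) * m) ^ 2 := Nat.pow_le_pow_left this 2
  have h2 : 4 * k ^ 2 ≤ N := by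
    rw [hN]
    exact h1.trans (Nat.le_mul_of_pos_left _ h0)
  have h3 : m ^ (4 * h) ≤ N := by
    rw [hN]
    exact Nat.le_mul_of_pos_right _ (by nlinarith)
  have h4 : m ≤ N := by
    have h5 : m ≤ k * (m + 1) * m := Nat.le_mul_of_pos_left _ (by positivity)
    have h6 : k * (m + 1) * m ≤ (k * (m + 1) * m) ^ 2 := Nat.le_self_pow (by norm_num) _
    rw [hN]
    exact (h5.trans h6).trans (Nat.le_mul_of_pos_left _ h0)
  have h5 : 8 * k ^ 2 + 7 ≤ N ^ 2 := by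
    calc 8 * k ^ 2 + 7 ≤ (4 * k ^ 2) ^ 2 := by nlinarith [Nat.mul_le_mul hk hk]
      _ ≤ N ^ 2 := Nat.pow_le_pow_left h2 2
  have h6 : L + 1 ≤ N ^ (2 * k + 1) * N ^ 2 := by
    have h7 : m * (m ^ k) ^ 2 = m ^ (2 * k + 1) := by
      rw [← pow_mul, mul_comm k 2, pow_succ, mul_comm]
    have h8 : 1 ≤ m ^ (2 * k + 1) := Nat.pow_pos hm
    rw [h7] at hL
    calc L + 1 ≤ m ^ (2 * k + 1) * (8 * k ^ 2 + 6) + m ^ (2 * k + 1) := by omega
      _ = m ^ (2 * k + 1) * (8 * k ^ 2 + 7) := by ring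
      _ ≤ N ^ (2 * k + 1) * N ^ 2 := Nat.mul_le_mul (Nat.pow_le_pow_left h4 _) h5
  calc m ^ (4 * h) * (L + 1) ≤ N * (N ^ (2 * k + 1) * N ^ 2) := Nat.mul_le_mul h3 h6
    _ = N ^ (2 * k + 4) := by ring

/-- numbers for the lower bound -/
theorem num_low (c g h k m N : ℕ) (hh : 1 ≤ h) (hk : k = (4 * h + 5) * c + 2)
    (hm : (4 * k ^ 2) ^ h + 3 ≤ m) (hN : N = m ^ (4 * h) * (k * (m + 1) * m) ^ 2) :
    (∀ t : ℕ, (2 ^ t) ^ h * N ≤ N ^ h → 2 ^ t ≤ m ^ (4 * h)) ∧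
    (∀ T : ℕ, T ≤ N ^ (g + 1) → 2 * T + 1 ≤ m ^ ((4 * h + 5) * (g + 1) + 1)) ∧
    (∀ S : ℕ, m ^ (k * ((4 * h + 5) * (g + 1) + 1)) ≤
      m * (S + 1) ^ ((4 * h + 5) * (g + 1) + 1) → N ^ c < S) := by
  have hm1 : 1 ≤ m := by omega
  have hk1 : 1 ≤ 4 * k ^ 2 := by
    have : 0 < k ^ 2 := Nat.pow_pos (by omega)
    omega
  have hkm : 4 * k ^ 2 ≤ m := by
    have : (4 * k ^ 2) ^ 1 ≤ (4 * k ^ 2) ^ h := Nat.pow_le_pow_right hk1 hh
    rw [pow_one] at this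
    omega
  have hN1 : N ≤ 4 * k ^ 2 * m ^ (4 * h + 4) := by
    have h1 : (m + 1) ^ 2 ≤ 4 * m ^ 2 := by nlinarith
    calc N = m ^ (4 * h) * (k ^ 2 * (m + 1) ^ 2 * m ^ 2) := by rw [hN]; ring
      _ ≤ m ^ (4 * h) * (k ^ 2 * (4 * m ^ 2) * m ^ 2) :=
          Nat.mul_le_mul_left _ (Nat.mul_le_mul_right _ (Nat.mul_le_mul_left _ h1))
      _ = 4 * k ^ 2 * m ^ (4 * h + 4) := by ring
  have hN2 : N ≤ m ^ (4 * h + 5) := by
    calc N ≤ 4 * k ^ 2 * m ^ (4 * h + 4) := hN1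
      _ ≤ m * m ^ (4 * h + 4) := Nat.mul_le_mul_right _ hkm
      _ = m ^ (4 * h + 5) := by ring
  have hN0 : 1 ≤ N := by
    rw [hN]
    exact Nat.mul_pos (Nat.pow_pos hm1) (Nat.pow_pos (Nat.mul_pos (Nat.mul_pos (by omega)
      (by omega)) hm1))
  refine ⟨?_, ?_, ?_⟩
  · intro t ht
    by_contra hcon
    rw [not_le] at hcon
    obtain ⟨h', rfl⟩ : ∃ h', h = h' + 1 := ⟨h - 1, by omega⟩
    have h2 : N ^ h' ≤ (m ^ (4 * (h' + 1))) ^ (h' + 1) := by
      calc N ^ h' ≤ (4 * k ^ 2 * m ^ (4 * (h' + 1) + 4)) ^ h' := Nat.pow_le_pow_left hN1 _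
        _ = (4 * k ^ 2) ^ h' * m ^ ((4 * (h' + 1) + 4) * h') := by rw [mul_pow, ← pow_mul]
        _ ≤ m ^ 4 * m ^ ((4 * (h' + 1) + 4) * h') := by
            refine Nat.mul_le_mul_right _ ?_
            calc (4 * k ^ 2) ^ h' ≤ (4 * k ^ 2) ^ (h' + 1) := Nat.pow_le_pow_right hk1 (by omega)
              _ ≤ m := by omega
              _ ≤ m ^ 4 := Nat.le_self_pow (by norm_num) _
        _ = (m ^ (4 * (h' + 1))) ^ (h' + 1) := by
            rw [← pow_add, ← pow_mul]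
            congr 1
            ring
    have h3 : (m ^ (4 * (h' + 1))) ^ (h' + 1) < (2 ^ t) ^ (h' + 1) :=
      Nat.pow_lt_pow_left hcon (by omega)
    have h4 : N ^ (h' + 1) < (2 ^ t) ^ (h' + 1) * N := by
      calc N ^ (h' + 1) = N ^ h' * N := pow_succ _ _
        _ < (2 ^ t) ^ (h' + 1) * N := Nat.mul_lt_mul_of_pos_right (h2.trans_lt h3) hN0
    omega
  · intro T hT
    have h1 : N ^ (g + 1) ≤ m ^ ((4 * h + 5) * (g + 1)) := by
      rw [pow_mul]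
      exact Nat.pow_le_pow_left hN2 _
    have h2 : 1 ≤ m ^ ((4 * h + 5) * (g + 1)) := Nat.pow_pos hm1
    calc 2 * T + 1 ≤ 3 * m ^ ((4 * h + 5) * (g + 1)) := by omega
      _ ≤ m * m ^ ((4 * h + 5) * (g + 1)) := Nat.mul_le_mul_right _ (by omega)
      _ = m ^ ((4 * h + 5) * (g + 1) + 1) := by rw [pow_succ, mul_comm]
  · intro S hS
    by_contra hcon
    rw [not_lt] at hcon
    set G := (4 * h + 5) * (g + 1) + 1 with hG
    have h1 : S + 1 ≤ m ^ ((4 * h + 5) * c + 1) := by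
      have h2 : N ^ c ≤ m ^ ((4 * h + 5) * c) := by
        rw [pow_mul]
        exact Nat.pow_le_pow_left hN2 _
      have h3 : 1 ≤ m ^ ((4 * h + 5) * c) := Nat.pow_pos hm1
      calc S + 1 ≤ 2 * m ^ ((4 * h + 5) * c) := by omega
        _ ≤ m * m ^ ((4 * h + 5) * c) := Nat.mul_le_mul_right _ (by omega)
        _ = m ^ ((4 * h + 5) * c + 1) := by rw [pow_succ, mul_comm]
    have h4 : m * (S + 1) ^ G ≤ m ^ (((4 * h + 5) * c + 1) * G + 1) := by
      calc m * (S + 1) ^ G ≤ m * (m ^ ((4 * h + 5) * c + 1)) ^ G :=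
            Nat.mul_le_mul_left _ (Nat.pow_le_pow_left h1 _)
        _ = m ^ (((4 * h + 5) * c + 1) * G + 1) := by rw [← pow_mul, pow_succ, mul_comm]
    have h5 : m ^ (k * G) ≤ m ^ (((4 * h + 5) * c + 1) * G + 1) := hS.trans h4
    have h6 := (Nat.pow_le_pow_iff_right (by omega : 1 < m)).1 h5
    have h7 : k * G = ((4 * h + 5) * c + 1) * G + G := by rw [hk]; ring
    have h8 : 5 * 1 ≤ (4 * h + 5) * (g + 1) := Nat.mul_le_mul (by omega) (by omega)
    omega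

/-- **Superlinear width for problems in (monotone) polynomial time.** -/
theorem result : ∀ c h : ℕ, 1 ≤ h → ∃ k C : ℕ,
    (∀ ℓ : ℕ, ∃ (ρ : Type) (_ : Fintype ρ) (_ : DecidableEq ρ)
      (p : List (NInstr (Inputs k h ℓ) ρ)) (o : ρ),
      (∀ (i : ρ) (f : ℝ → ℝ → ℝ) (j l : ρ), NInstr.app i f j l ∈ p →
        f = (fun a b => min a b) ∨ f = (fun a b => max a b) ∨ f = (fun _ _ => 0) ∨
          f = (fun _ _ => 1)) ∧
      NDecides (SomeClique k h ℓ) p o ∧ negs p = 0 ∧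
      p.length ≤ Fintype.card (Inputs k h ℓ) ^ C) ∧
    (∀ g : ℕ, ∃ ℓ₀ : ℕ, ∀ ℓ ≥ ℓ₀, ∀ N : ℕ, N = Fintype.card (Inputs k h ℓ) →
      ∀ (ρ : Type) [Fintype ρ] [DecidableEq ρ] (p : List (NInstr (Inputs k h ℓ) ρ)) (o : ρ),
        NIsMono p → NDecides (SomeClique k h ℓ) p o → p.length ≤ N ^ g →
          (2 ^ negs p) ^ h * N ≤ N ^ h → N ^ c < Fintype.card ρ) := by
  intro c h hh
  refine ⟨(4 * h + 5) * c + 2, 2 * ((4 * h + 5) * c + 2) + 4, ?_, ?_⟩
  · intro ℓ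
    set k := (4 * h + 5) * c + 2 with hk
    obtain ⟨ρ, i1, i2, p, o, hp, ho, -, hL⟩ :=
      Pool.Agent.H564R3.MR.upper_real k k ℓ (2 ^ ℓ) le_rfl
    obtain ⟨p', hp', ho', hlen⟩ := or_prog (HasClique (k := k) (n := 2 ^ ℓ + 1) (m := 2 ^ ℓ))
      ((2 ^ ℓ) ^ (4 * h)) p o hp ho
    refine ⟨Option (Fin ((2 ^ ℓ) ^ (4 * h)) × ρ), inferInstance, inferInstance, p'.map toN, none,
      ?_, ?_, negs_toN _, ?_⟩
    · intro i f j l hf
      rw [List.mem_map] at hf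
      obtain ⟨I, hI, hI'⟩ := hf
      cases I with
      | load a x => exact absurd hI' (by simp [toN])
      | app a f' b d =>
        simp only [toN, NInstr.app.injEq] at hI'
        obtain ⟨rfl, rfl, rfl, rfl⟩ := hI'
        exact hp' _ _ _ _ hI
    · intro w
      rw [nexec_toN]
      exact ho' w
    · rw [List.length_map, hlen]
      refine num_up k h (2 ^ ℓ) _ p.length (by omega) Nat.one_le_two_pow (card_in _ _ _ _) ?_
      rw [Nat.sub_self, pow_zero, mul_one] at hL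
      exact hL
  · intro g
    set k := (4 * h + 5) * c + 2 with hk
    obtain ⟨n₀, m₀, h₀⟩ := Pool.Agent.H564R3.MR.lower k ((4 * h + 5) * (g + 1) + 1)
      (by omega) (by omega)
    refine ⟨n₀ + m₀ + ((4 * k ^ 2) ^ h + 3), fun ℓ hℓ N hN ρ _ _ p o hp ho hT hneg => ?_⟩
    have hℓm : ℓ < 2 ^ ℓ := Nat.lt_two_pow_self
    obtain ⟨h5, h6, h7⟩ := num_low c g h k (2 ^ ℓ) N hh hk (by omega) (by rw [hN, card_in])
    have hN0 : 1 ≤ N := by
      rw [hN]
      exact Fintype.card_pos_iff.2 ⟨(⟨0, by positivity⟩, (((⟨0, by omega⟩, ⟨0, by omega⟩),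
        ⟨0, by omega⟩), ((⟨0, by omega⟩, ⟨0, by omega⟩), ⟨0, by omega⟩)))⟩
    obtain ⟨p₂, hp₂, ho₂, hlen₂⟩ := freeze (HasClique (k := k) (n := 2 ^ ℓ + 1) (m := 2 ^ ℓ))
      (not_hasClique (by omega) (by omega)) ((2 ^ ℓ) ^ (4 * h)) p hp o ho (h5 _ hneg)
    have h8 := h₀ (2 ^ ℓ + 1) (by omega) (2 ^ ℓ) (by omega) (Option ρ) p₂ none hp₂ ho₂
      (hlen₂.trans (h6 _ (hT.trans (Nat.pow_le_pow_right hN0 (by omega)))))
    rw [Fintype.card_option] at h8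
    exact h7 _ h8

end Pool.Agent.Results.MP_d19090_lc.SuperlinearWidth
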