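import Pool.Agent.H560R2.Sw4

/-!
A function in parity-L that needs large space in a restricted model: layered circuits with few
non-monotone gates, in which the width corresponds to space and the length to time.

A deterministic machine with space `S` and time `T` on inputs of a given length is simulated by
circuits with `O(T)` layers of `O(S)` gates; in each layer the gates may read gates of the previous
layer and input bits. So polylogarithmic space is polylogarithmic width and quasi-polynomial length.

The function: unsolvability of the subsets of a fixed sparse system of at most `N` linear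
equations over the field with two elements in `N` variables. It has a monotone span program over
this field with one row for each equation, so it is in the class parity-L, which is contained in
`NC^2` and in `P`.

The proof: a monotone circuit of width `W` and length `2 ^ p` has depth `O(W p)` after balancing:
divide and conquer over the layers, guessing (monotonically) the state in the middle. For few
arbitrary gates many disjoint copies of the function are used: a chain of solvable systems is built
copy by copy; if in some copy no such system changes the bits that enter the arbitrary gates, then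
these gates can be replaced by constants, and the OR of the output and of the bits that were `0`
decides the copy.
-/

namespace Pool.Agent.Results.MP_d19090_lc.WidthTimesLogLength

open Pool.Agent.H560R2

/-- A linear equation over the field with two elements: the sum of the variables `e.1 0`, ...,
`e.1 7` is `e.2`. -/
abbrev Equation (N : ℕ) : Type := (Fin 8 → Fin N) × ZMod 2

/-- The system of the equations `G i` with `x i = true` is solvable. -/
def Solvable {N m : ℕ} (G : Fin m → Equation N) (x : Fin m → Bool) : Prop :=
  ∃ a : Fin N → ZMod 2, ∀ i, x i = true → ∑ j, a ((G i).1 j) = (G i).2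

/-- Layered circuits over the input bits `V`. Gate `i` of layer `k + 1` computes the function
`op k i` of `fan k i` arguments `arg k i j`, each a literal (the literal `(v, b)` is true if the bit
`v` is equal to `b`) or a gate of layer `k`. The gates outside `T k` are monotone with at most two
arguments (AND, OR, constants); those in `T k` are arbitrary. The gates of layer `0` are `0`. -/
structure LayeredCircuit (V : Type) where
  width : ℕ
  T : ℕ → Finset (Fin width)
  fan : ℕ → Fin width → ℕ
  arg : (k : ℕ) → (i : Fin width) → Fin (fan k i) → (V × Bool) ⊕ Fin width
  op : (k : ℕ) → (i : Fin width) → (Fin (fan k i) → Bool) → Bool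
  val : (V → Bool) → ℕ → Fin width → Bool
  mono : ∀ k, ∀ i ∉ T k, fan k i ≤ 2 ∧ Monotone (op k i)
  init : ∀ x i, val x 0 i = false
  step : ∀ x k i, val x (k + 1) i = op k i (fun j =>
    Sum.elim (fun l => decide (x l.1 = l.2)) (val x k) (arg k i j))

/-- There is a constant `c` such that for all `N` and `t` there is a set `G` of `m ≤ N` linear
equations over the field with two elements in `N` variables, eight in each equation, with the
following properties.

(1) There is a monotone span program over this field with `m` rows for unsolvability: it has a row
for each equation and a target, and the system of the equations `G i` with `x i = true` is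
unsolvable if and only if the target is in the span of their rows.

(2) Let the gate `o` of layer `l` of a layered circuit `C` decide unsolvability of the subsystems of
`G`. If the product over the first `l` layers of `1 +` the total fan-in of the arbitrary gates of
the layer, plus the number of input bits that are used negated (those in `Z`), is at most `t + 1`,
then `N ≤ c (t + 1) (W (log l + 1) + log (t + 1) + 1)`, where `W` is the width. -/
theorem result : ∃ c : ℕ, ∀ N t : ℕ, ∃ (m : ℕ) (G : Fin m → Equation N), m ≤ N ∧
    (∃ (row : Fin m → Fin (N + 1) → ZMod 2) (target : Fin (N + 1) → ZMod 2), ∀ x : Fin m → Bool,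
      target ∈ Submodule.span (ZMod 2) (row '' {i | x i = true}) ↔ ¬ Solvable G x) ∧
    ∀ (C : LayeredCircuit (Fin m)) (Z : Finset (Fin m)) (l : ℕ) (o : Fin C.width),
      (∀ k i j v, C.arg k i j = Sum.inl (v, false) → v ∈ Z) →
      ∏ k ∈ Finset.range l, (1 + ∑ i ∈ C.T k, C.fan k i) + Z.card ≤ t + 1 →
      (∀ x, C.val x l o = true ↔ ¬ Solvable G x) →
      N ≤ c * (t + 1) * (C.width * (Nat.log 2 l + 1) + Nat.log 2 (t + 1) + 1) := by
  classical
  obtain ⟨c0, hc0, h0⟩ := lin_blocks
  refine ⟨4 * c0, fun N t => ?_⟩
  by_cases hN : c0 * (t + 1) ≤ N
  · obtain ⟨m, s, G, hm, hNs, hB⟩ := h0 N (t + 1) (by omega) hN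
    refine ⟨m, G, hm, ⟨lrow G, ltgt N, fun x => solv_span G x⟩, ?_⟩
    intro C Z l o hZ hprod hC
    have hW : 1 ≤ C.width := o.pos
    have h := ((hB ℚ two_ne_zero).restrict Z).layered (W := C.width) (fan := C.fan) (T := C.T)
      (arg := fun k i j => Sum.map Prod.fst id (C.arg k i j))
      (op := fun k i y => C.op k i (fun j =>
        Sum.elim (fun lt : Fin m × Bool => if lt.1 ∈ Z then !lt.2 else y j) (fun _ => y j)
          (C.arg k i j)))
      (val := fun x => C.val (rst Z x))
      (by
        intro k i hi
        refine ⟨(C.mono k i hi).1, fun y y' hy => (C.mono k i hi).2 (fun j => ?_)⟩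
        rcases C.arg k i j with lt | g
        · simp only [Sum.elim_inl]
          split_ifs
          · exact le_rfl
          · exact hy j
        · exact hy j)
      (fun x i => C.init (rst Z x) i)
      (by
        intro x k i
        rw [C.step]
        congr 1
        funext j
        unfold lpr
        beta_reduce
        rcases hj : C.arg k i j with ⟨v, b⟩ | g
        · simp only [Sum.elim_inl, Sum.map_inl]
          by_cases hv : v ∈ Z
          · simp only [rst, hv, if_true]
            cases b <;> rfl
          · simp only [rst, hv, if_false]
            cases b with
            | false => exact absurd (hZ k i j v hj) hv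
            | true => cases x v <;> simp
        · rfl)
      l (Nat.log 2 l + 1) (Nat.lt_pow_succ_log_self (by norm_num) l).le o
      (fun x => hC (rst Z x)) (by omega)
    have h1 : Nat.log 2 (t + 1 - Z.card) ≤ Nat.log 2 (t + 1) := Nat.log_mono_right (by omega)
    have h2 : s + 1 ≤ 4 * (C.width * (Nat.log 2 l + 1) + Nat.log 2 (t + 1) + 1) := by
      nlinarith [Nat.zero_le (Nat.log 2 l)]
    calc N ≤ c0 * (t + 1) * (s + 1) := hNs
      _ ≤ c0 * (t + 1) * (4 * (C.width * (Nat.log 2 l + 1) + Nat.log 2 (t + 1) + 1)) :=
        Nat.mul_le_mul_left _ h2
      _ = 4 * c0 * (t + 1) * (C.width * (Nat.log 2 l + 1) + Nat.log 2 (t + 1) + 1) := by ring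
  · refine ⟨0, Fin.elim0, Nat.zero_le _, ⟨lrow _, ltgt N, fun x => solv_span _ x⟩, ?_⟩
    intro C Z l o _ _ _
    have h1 : N ≤ 4 * c0 * (t + 1) * 1 := by
      have : c0 * (t + 1) ≤ 4 * c0 * (t + 1) * 1 := by nlinarith
      omega
    exact h1.trans (Nat.mul_le_mul_left _ (by omega))

end Pool.Agent.Results.MP_d19090_lc.WidthTimesLogLength
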